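import Pool.Agent.H38.LR.S8.H617R3.BT.Defs
import Pool.Agent.H38.LR.S8.W23.Mert

set_option autoImplicit false

/-!
Counting the prime factors of `N - p`, `p` in a set `A` of primes.
-/

namespace Pool.Agent.W23.DS

open Finset ArithmeticFunction

/-- the number of `p ∈ A`, `p ≠ N`, with `d ∣ N - p` -/
noncomputable def cc (A : Finset ℕ) (N : ℤ) (d : ℕ) : ℕ :=
  (A.filter (fun p : ℕ => (p : ℤ) ≠ N ∧ (d : ℤ) ∣ N - p)).card

theorem cc_le_card (A : Finset ℕ) (N : ℤ) (d : ℕ) : cc A N d ≤ A.card :=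
  Finset.card_filter_le _ _

theorem cc_triv {A : Finset ℕ} {N : ℤ} {d X : ℕ} (hA : ∀ p ∈ A, p ≤ X) (hN : |N| ≤ 2 * X)
    (hd : 1 ≤ d) : (cc A N d : ℝ) ≤ 6 * X / d := by
  have h1 : cc A N d ≤ ((Icc (-((3 * X / d : ℕ) : ℤ)) ((3 * X / d : ℕ) : ℤ)).erase 0).card := by
    unfold cc
    apply Finset.card_le_card_of_injOn (fun p : ℕ => (N - (p : ℤ)) / (d : ℤ))
    · intro p hp
      rw [Finset.mem_coe, mem_filter] at hp
      obtain ⟨hpA, hpN, k, hk⟩ := hp
      have hd' : (d : ℤ) ≠ 0 := by omega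
      have hpX := hA p hpA
      have e1 : (N - (p : ℤ)) / (d : ℤ) = k := by rw [hk]; exact Int.mul_ediv_cancel_left k hd'
      rw [Finset.mem_coe]
      show (N - (p : ℤ)) / (d : ℤ) ∈ _
      rw [e1, mem_erase, mem_Icc]
      have hk0 : k ≠ 0 := by
        rintro rfl
        apply hpN
        have : N - (p : ℤ) = 0 := by rw [hk, mul_zero]
        omega
      have habs : |N - (p : ℤ)| ≤ 3 * X := by
        have h3 := abs_le.1 hN
        rw [abs_le]
        constructor <;> omega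
      have hkabs : (k.natAbs) * d ≤ 3 * X := by
        have h4 : |N - (p : ℤ)| = (d : ℤ) * |k| := by
          rw [hk, abs_mul, abs_of_nonneg (by omega : (0 : ℤ) ≤ (d : ℤ))]
        rw [h4] at habs
        have h6 : ((k.natAbs * d : ℕ) : ℤ) ≤ ((3 * X : ℕ) : ℤ) := by
          rw [Nat.cast_mul, ← Int.abs_eq_natAbs, mul_comm]
          push_cast
          exact habs
        exact Int.ofNat_le.1 h6
      have h5 : k.natAbs ≤ 3 * X / d := (Nat.le_div_iff_mul_le (by omega)).2 hkabs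
      refine ⟨hk0, ?_, ?_⟩ <;> omega
    · intro p hp p' hp' h
      rw [Finset.mem_coe, mem_filter] at hp hp'
      obtain ⟨_, _, k, hk⟩ := hp
      obtain ⟨_, _, k', hk'⟩ := hp'
      have hd' : (d : ℤ) ≠ 0 := by omega
      simp only [hk, hk'] at h
      rw [Int.mul_ediv_cancel_left k hd', Int.mul_ediv_cancel_left k' hd'] at h
      subst h
      have : N - (p : ℤ) = N - (p' : ℤ) := by rw [hk, hk']
      omega
  have h2 : ((Icc (-((3 * X / d : ℕ) : ℤ)) ((3 * X / d : ℕ) : ℤ)).erase 0).card =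
      2 * (3 * X / d) := by
    generalize 3 * X / d = m
    rw [Finset.card_erase_of_mem (by rw [mem_Icc]; omega), Int.card_Icc]
    omega
  rw [h2] at h1
  have hd0 : (0 : ℝ) < d := by exact_mod_cast hd
  have h3 : ((3 * X / d : ℕ) : ℝ) ≤ ((3 * X : ℕ) : ℝ) / d := Nat.cast_div_le
  have h4 : (cc A N d : ℝ) ≤ 2 * ((3 * X / d : ℕ) : ℝ) := by exact_mod_cast h1
  push_cast at h3
  calc (cc A N d : ℝ) ≤ 2 * (3 * X / d) := h4.trans (by linarith)
    _ = 6 * X / d := by ring

/-- the sum of the logarithms, expanded over divisors -/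
theorem T_eq {A : Finset ℕ} {N : ℤ} {X : ℕ} (hA : ∀ p ∈ A, p ≤ X) (hN : |N| ≤ 2 * X) :
    ∑ p ∈ A.filter (fun p : ℕ => (p : ℤ) ≠ N), Real.log ((N - (p : ℤ)).natAbs : ℝ) =
      ∑ d ∈ Icc 1 (3 * X), Λ d * (cc A N d : ℝ) := by
  have h1 : ∀ p ∈ A.filter (fun p : ℕ => (p : ℤ) ≠ N),
      Real.log ((N - (p : ℤ)).natAbs : ℝ) =
        ∑ d ∈ Icc 1 (3 * X), if (d : ℤ) ∣ N - (p : ℤ) then Λ d else 0 := by
    intro p hp
    rw [mem_filter] at hp
    have hpX := hA p hp.1
    rw [← vonMangoldt_sum, ← Finset.sum_filter]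
    apply Finset.sum_congr _ fun _ _ => rfl
    ext d
    rw [Nat.mem_divisors, mem_filter, mem_Icc, ← Int.natCast_dvd]
    have h3 := abs_le.1 hN
    have hne : (N - (p : ℤ)).natAbs ≠ 0 := by
      rw [Int.natAbs_ne_zero]; omega
    constructor
    · rintro ⟨h4, h5⟩
      refine ⟨⟨?_, ?_⟩, h4⟩
      · by_contra h6
        have : d = 0 := by omega
        subst this
        simp only [Nat.cast_zero, zero_dvd_iff] at h4
        omega
      · have h6 : d ≤ (N - (p : ℤ)).natAbs :=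
          Nat.le_of_dvd (Nat.pos_of_ne_zero hne) (Int.natCast_dvd.1 h4)
        omega
    · rintro ⟨h4, h5⟩
      exact ⟨h5, hne⟩
  rw [Finset.sum_congr rfl h1, Finset.sum_comm]
  apply Finset.sum_congr rfl
  intro d _
  rw [← Finset.sum_filter, Finset.sum_const, nsmul_eq_mul, Finset.filter_filter, mul_comm]
  rfl

/-- the contribution of the higher prime powers is negligible -/
theorem nonprime (ε : ℝ) (hε : 0 < ε) : ∃ S : ℝ, 0 ≤ S ∧ ∀ (A : Finset ℕ) (N : ℤ) (X : ℕ),
    (∀ p ∈ A, p ≤ X) → |N| ≤ 2 * X →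
    ∑ d ∈ (Icc 1 (3 * X)).filter (fun d => ¬ d.Prime), Λ d * (cc A N d : ℝ) ≤
      S * A.card + ε * X := by
  have hs := ArithmeticFunction.vonMangoldt.summable_residueClass_non_primes_div (q := 1) 1
  have hv := hs.vanishing (e := Metric.ball (0 : ℝ) (ε / 6)) (Metric.ball_mem_nhds _ (by positivity))
  obtain ⟨s, hs⟩ := hv
  refine ⟨∑ d ∈ s, Λ d, Finset.sum_nonneg fun _ _ => vonMangoldt_nonneg, ?_⟩
  intro A N X hA hN
  set P := (Icc 1 (3 * X)).filter (fun d => ¬ d.Prime) with hP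
  have h1 : ∑ d ∈ P, Λ d * (cc A N d : ℝ) = ∑ d ∈ P.filter (fun d => d ∈ s), Λ d * (cc A N d : ℝ) +
      ∑ d ∈ P.filter (fun d => ¬ d ∈ s), Λ d * (cc A N d : ℝ) :=
    (Finset.sum_filter_add_sum_filter_not _ _ _).symm
  have h2 : ∑ d ∈ P.filter (fun d => d ∈ s), Λ d * (cc A N d : ℝ) ≤ (∑ d ∈ s, Λ d) * A.card := by
    rw [Finset.sum_mul]
    refine (Finset.sum_le_sum (g := fun d => Λ d * (A.card : ℝ)) ?_).trans ?_
    · intro d _
      exact mul_le_mul_of_nonneg_left (by exact_mod_cast cc_le_card A N d) vonMangoldt_nonneg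
    · apply Finset.sum_le_sum_of_subset_of_nonneg
      · intro d hd
        exact (mem_filter.1 hd).2
      · intro d _ _
        exact mul_nonneg vonMangoldt_nonneg (Nat.cast_nonneg _)
  have h3 : ∑ d ∈ P.filter (fun d => ¬ d ∈ s), Λ d * (cc A N d : ℝ) ≤ ε * X := by
    have h4 := hs (P.filter (fun d => ¬ d ∈ s)) (by
      rw [Finset.disjoint_left]
      intro d hd
      exact (mem_filter.1 hd).2)
    rw [Metric.mem_ball, dist_zero_right, Real.norm_eq_abs] at h4
    have h5 := (abs_lt.1 h4).2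
    have h6 : ∑ d ∈ P.filter (fun d => ¬ d ∈ s), Λ d * (cc A N d : ℝ) ≤
        6 * X * ∑ d ∈ P.filter (fun d => ¬ d ∈ s),
          (if d.Prime then 0 else ArithmeticFunction.vonMangoldt.residueClass (1 : ZMod 1) d) /
            (d : ℝ) := by
      rw [Finset.mul_sum]
      apply Finset.sum_le_sum
      intro d hd
      rw [mem_filter, hP, mem_filter, mem_Icc] at hd
      rw [if_neg hd.1.2]
      have h7 : ArithmeticFunction.vonMangoldt.residueClass (1 : ZMod 1) d = Λ d := by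
        unfold ArithmeticFunction.vonMangoldt.residueClass
        rw [Set.indicator_of_mem]
        exact Subsingleton.elim _ _
      rw [h7]
      have h8 := cc_triv (A := A) (N := N) (d := d) (X := X) hA hN hd.1.1.1
      calc Λ d * (cc A N d : ℝ) ≤ Λ d * (6 * X / d) :=
            mul_le_mul_of_nonneg_left h8 vonMangoldt_nonneg
        _ = 6 * X * (Λ d / d) := by ring
    have h7 : 6 * (X : ℝ) * ∑ d ∈ P.filter (fun d => ¬ d ∈ s),
          (if d.Prime then 0 else ArithmeticFunction.vonMangoldt.residueClass (1 : ZMod 1) d) /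
            (d : ℝ) ≤ 6 * X * (ε / 6) := mul_le_mul_of_nonneg_left h5.le (by positivity)
    linarith
  linarith

theorem cc_le_cnt {A : Finset ℕ} {N : ℤ} {q X : ℕ} (hA : ∀ p ∈ A, p.Prime ∧ p ≤ X) :
    cc A N q ≤ Pool.Agent.H617R3.BT.cnt X X q N := by
  rw [Pool.Agent.H617R3.BT.cnt_eq]
  apply Finset.card_le_card
  intro p hp
  rw [mem_filter] at hp
  rw [Pool.Agent.H617R3.BT.mem_pf]
  have h1 := hA p hp.1
  refine ⟨h1.1, ?_, by exact_mod_cast h1.2, ?_⟩
  · rw [sub_self]; exact_mod_cast h1.1.pos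
  · exact Int.modEq_iff_dvd.2 hp.2.2

end Pool.Agent.W23.DS
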